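import Pool.Agent.Helper28_TP.StS

/-!
# Squad TP (MP_e1bfc2_pr), module PLZ: the six steps at the new block
-/

set_option autoImplicit false

namespace Pool.Agent.TP.H33

open Pool.Agent.Helper33_FPP (Z2 dst Rect)

variable {k : ℕ}

/-- `Post` is monotone in the number of layers. -/
theorem post_mono {N : Finset (Pt k)} {p ε : ℝ} {m n : ℕ} {z : ℤ × ℤ} {a : Bool} {g : ℤ}
    {i j : ℕ} (hij : i ≤ j) {s s' : St k} (h : Post N p ε m n z a g i s s') :
    Post N p ε m n z a g j s s' where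
  ok := h.ok
  rc := h.rc
  sub := h.sub
  cov := h.cov
  covR := h.covR
  keep := by
    intro v l hv
    obtain ⟨h1, h2⟩ := h.keep v l hv
    refine ⟨h1, ?_⟩
    rcases h2 with h2 | ⟨i', hi', h2⟩
    · exact Or.inl h2
    · exact Or.inr ⟨i', lt_of_lt_of_le hi' hij, h2⟩
  adj := h.adj

/-- The averaged bound. -/
theorem avg (δ βS βF : ℝ) (r : ℕ) (hδ : 0 ≤ δ) (hSF : βS ≤ βF) :
    (1 - δ) * ((1 - r * δ) * βS + r * δ * βF) + δ * βF ≤
      (1 - ((r + 1 : ℕ) : ℝ) * δ) * βS + ((r + 1 : ℕ) : ℝ) * δ * βF := by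
  push_cast
  have h1 : 0 ≤ (r : ℝ) * δ * δ * (βF - βS) := by
    have : 0 ≤ βF - βS := by linarith
    positivity
  nlinarith

theorem avg_nonneg (δ βS βF : ℝ) (r : ℕ) (hδ : 0 ≤ δ) (h0 : 0 ≤ βS) (hSF : βS ≤ βF)
    (hr : (r : ℝ) * δ ≤ 1) : 0 ≤ (1 - r * δ) * βS + r * δ * βF := by
  have h1 : 0 ≤ (r : ℝ) * δ := by positivity
  have h2 : 0 ≤ βF := h0.trans hSF
  have h3 : 0 ≤ 1 - (r : ℝ) * δ := by linarith
  positivity

theorem avg_le (δ βS βF : ℝ) (r : ℕ) (hSF : βS ≤ βF)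
    (hr : (r : ℝ) * δ ≤ 1) : (1 - r * δ) * βS + r * δ * βF ≤ βF := by
  have h3 : 0 ≤ 1 - (r : ℝ) * δ := by linarith
  nlinarith

/-! ### Plane coordinates -/

theorem box_iff (D : ℤ) (z : ℤ × ℤ) (a : Bool) (g : ℤ) (hg : g = 1 ∨ g = -1) (n : ℤ)
    (b x : Pt k) : (|x 0 - b 0| ≤ n ∧ |x 1 - b 1| ≤ n) ↔
      (|pc D z a g x - pc D z a g b| ≤ n ∧ |lc D z a x - lc D z a b| ≤ n) := by
  have e1 : pc D z a g x - pc D z a g b = g * (x (axi k a) - b (axi k a)) := by
    unfold pc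
    ring
  have e2 : lc D z a x - lc D z a b = x (axi k (!a)) - b (axi k (!a)) := by
    unfold lc
    ring
  have e3 : |pc D z a g x - pc D z a g b| = |x (axi k a) - b (axi k a)| := by
    rw [e1, abs_mul]
    rcases hg with rfl | rfl <;> simp
  rw [e3, e2]
  cases a <;> simp [axi, and_comm]

theorem nearB_iff (D : ℤ) (z : ℤ × ℤ) (a : Bool) (g : ℤ) (hg : g = 1 ∨ g = -1) (w : ℤ)
    (x : Pt k) : nearB D (nbr z a g) w x ↔
      (|pc D z a g x - D| ≤ w ∧ |lc D z a x| ≤ w) := by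
  unfold nearB pc lc nbr cen axi
  have h10 : ¬ ((1 : Fin (k + 2)) = 0) := by
    intro h
    have := congrArg Fin.val h
    simp at this
  rcases hg with rfl | rfl <;> cases a <;>
    simp only [Bool.not_false, Bool.not_true, if_true, if_false, Bool.false_eq_true,
      if_neg h10, abs_le] <;> constructor <;> rintro ⟨⟨h1, h2⟩, h3, h4⟩ <;>
    refine ⟨⟨?_, ?_⟩, ?_, ?_⟩ <;> linarith

theorem pc_fwd (D : ℤ) (z : ℤ × ℤ) (a : Bool) (g : ℤ) (hg : g = 1 ∨ g = -1) (x : Pt k) :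
    pc D (nbr z a g) a g x = pc D z a g x - D ∧ lc D (nbr z a g) a x = lc D z a x := by
  unfold pc lc nbr cen axi
  have h10 : ¬ ((1 : Fin (k + 2)) = 0) := by
    intro h
    have := congrArg Fin.val h
    simp at this
  rcases hg with rfl | rfl <;> cases a <;>
    simp only [Bool.not_false, Bool.not_true, if_true, if_false, Bool.false_eq_true,
      if_neg h10] <;> constructor <;> first | trivial | ring

theorem pc_lat (D : ℤ) (z : ℤ × ℤ) (a : Bool) (g g' : ℤ) (hg : g = 1 ∨ g = -1) (x : Pt k) :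
    pc D (nbr z a g) (!a) g' x = g' * lc D z a x ∧
      lc D (nbr z a g) (!a) x = g * (pc D z a g x - D) := by
  unfold pc lc nbr cen axi
  have h10 : ¬ ((1 : Fin (k + 2)) = 0) := by
    intro h
    have := congrArg Fin.val h
    simp at this
  rcases hg with rfl | rfl <;> cases a <;>
    simp only [Bool.not_false, Bool.not_true, if_true, if_false, Bool.false_eq_true,
      if_neg h10] <;> constructor <;> first | trivial | ring

theorem nbr_back (z : ℤ × ℤ) (a : Bool) (g : ℤ) : nbr (nbr z a g) a (-g) = z := by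
  unfold nbr
  cases a <;> simp

/-! ### One step forward, one step sideways -/

section
variable {N : Finset (Pt k)} {ρ : ℕ} {p ε : ℝ} {m n : ℕ} {δ : ℝ}
  {Reg C F : Finset (ℤ × ℤ)} {X : ℤ} {Λ : Finset (Pt k)} {s : St k} {z : ℤ × ℤ} {a : Bool} {g : ℤ}

/-- One step forward. -/
theorem stepF (hOne : OneStmt) (hN : GoodN N ρ) (hmn : 4 * m + 4 ≤ n) (hδ : 0 ≤ δ)
    (hδ16 : 16 * δ ≤ 1) (hSt : StepAt N p ε KK m n δ) (hVol : VolOK m n Reg Λ)
    (hV : Valid N p ε m n Reg C F X s) (hg : g = 1 ∨ g = -1) (hR : nbr z a g ∈ Reg)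
    (hC : nbr z a g ∉ C) (hF : nbr z a g ∉ F) (s₁ : St k) (b : Pt k) (τ : ℤ)
    (hτ : τ = 1 ∨ τ = -1) (i r : ℕ) (hi : i < 16) (hr : r < 16)
    (hP : Post N p ε m n z a g i s s₁) (hb : bx b m ⊆ s₁.R)
    (hbj : ∀ j, j ≠ 0 → j ≠ 1 → |b j| ≤ n)
    (hb1 : 6 * Ms m n + n ≤ pc (10 * Ms m n) z a g b)
    (hb2 : pc (10 * Ms m n) z a g b + n + 2 * m + 1 ≤ 14 * Ms m n)
    (hb3 : -(4 * Ms m n) ≤ lc (10 * Ms m n) z a b - n)
    (hb4 : lc (10 * Ms m n) z a b + n ≤ 4 * Ms m n)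
    (hdis : ∀ x ∈ s₁.R ∪ s₁.E,
      (n : ℤ) + 1 ≤ pc (10 * Ms m n) z a g x - pc (10 * Ms m n) z a g b →
      pc (10 * Ms m n) z a g x - pc (10 * Ms m n) z a g b ≤ n + 2 * m + 1 →
      -(n : ℤ) ≤ lc (10 * Ms m n) z a x - lc (10 * Ms m n) z a b →
      lc (10 * Ms m n) z a x - lc (10 * Ms m n) z a b ≤ n → False)
    (Φ : Finset (Pt k × ℕ) → Prop) (βS βF : ℝ) (h0 : 0 ≤ βS) (hSF : βS ≤ βF)
    (hS : ∀ s₂ b', Post N p ε m n z a g (i + 1) s s₂ → s₁.R ⊆ s₂.R →
      (∀ x ∈ s₂.R ∪ s₂.E, x ∈ s₁.R ∪ s₁.E ∨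
        (-(n : ℤ) ≤ pc (10 * Ms m n) z a g x - pc (10 * Ms m n) z a g b ∧
          pc (10 * Ms m n) z a g x - pc (10 * Ms m n) z a g b ≤ n + 2 * m + 1 ∧
          -(n : ℤ) ≤ lc (10 * Ms m n) z a x - lc (10 * Ms m n) z a b ∧
          lc (10 * Ms m n) z a x - lc (10 * Ms m n) z a b ≤ n)) → bx b' m ⊆ s₂.R →
      pc (10 * Ms m n) z a g b' = pc (10 * Ms m n) z a g b + Ms m n →
      (m : ℤ) ≤ τ * (lc (10 * Ms m n) z a b' - lc (10 * Ms m n) z a b) →
      τ * (lc (10 * Ms m n) z a b' - lc (10 * Ms m n) z a b) ≤ n - m →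
      (∀ j, j ≠ 0 → j ≠ 1 → |b' j| ≤ n) →
      PSt Λ KK s₂ Φ ≤ (1 - r * δ) * βS + r * δ * βF)
    (hFa : ∀ s₂, Post N p ε m n z a g 16 s s₂ → PSt Λ KK s₂ Φ ≤ βF) :
    PSt Λ KK s₁ Φ ≤ (1 - ((r + 1 : ℕ) : ℝ) * δ) * βS + ((r + 1 : ℕ) : ℝ) * δ * βF := by
  have hrδ : (r : ℝ) * δ ≤ 1 := by
    have : (r : ℝ) ≤ 16 := by exact_mod_cast hr.le
    nlinarith
  refine le_trans ?_ (avg δ βS βF r hδ hSF)
  have e1 : ∀ x : Pt k, g * (x (axi k a) - b (axi k a)) =
      pc (10 * Ms m n) z a g x - pc (10 * Ms m n) z a g b := by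
    intro x
    unfold pc
    ring
  have e2 : ∀ x : Pt k, x (axi k (!a)) - b (axi k (!a)) =
      lc (10 * Ms m n) z a x - lc (10 * Ms m n) z a b := by
    intro x
    unfold lc
    ring
  have hinT : ∀ x : Pt k, inT m n b a g τ x →
      (n : ℤ) + 1 ≤ pc (10 * Ms m n) z a g x - pc (10 * Ms m n) z a g b ∧
      pc (10 * Ms m n) z a g x - pc (10 * Ms m n) z a g b ≤ n + 2 * m + 1 ∧
      -(n : ℤ) ≤ lc (10 * Ms m n) z a x - lc (10 * Ms m n) z a b ∧
      lc (10 * Ms m n) z a x - lc (10 * Ms m n) z a b ≤ n := by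
    intro x hx
    unfold inT at hx
    rw [e1, e2] at hx
    obtain ⟨h1, h2, h3, h4⟩ := hx
    refine ⟨h1, h2, ?_⟩
    rcases hτ with rfl | rfl <;> constructor <;> linarith
  have hinW : ∀ x : Pt k, inW m n b a g τ x →
      -(n : ℤ) ≤ pc (10 * Ms m n) z a g x - pc (10 * Ms m n) z a g b ∧
          pc (10 * Ms m n) z a g x - pc (10 * Ms m n) z a g b ≤ n + 2 * m + 1 ∧
          -(n : ℤ) ≤ lc (10 * Ms m n) z a x - lc (10 * Ms m n) z a b ∧
          lc (10 * Ms m n) z a x - lc (10 * Ms m n) z a b ≤ n := by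
    intro x hx
    rcases hx with hx | hx
    · rw [box_iff (10 * Ms m n) z a g hg] at hx
      obtain ⟨h1, h2⟩ := hx
      rw [abs_le] at h1 h2
      exact ⟨h1.1, by omega, h2.1, h2.2⟩
    · obtain ⟨h1, h2, h3, h4⟩ := hinT x hx
      exact ⟨by omega, h2, h3, h4⟩
  refine hOne k N ρ p ε m n δ hN hmn hδ hδ16 hSt Reg C F X Λ s s₁ z a g b a g τ i hVol hV hg
    hR hC hF hg hτ hi hP hb hbj ?_ ?_ Φ _ βF (avg_nonneg δ βS βF r hδ h0 hSF hrδ)
    (avg_le δ βS βF r hSF hrδ) ?_ ?_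
  · intro x hxj hx
    obtain ⟨h1, h2, h3, h4⟩ := hinW x hx
    have hM : Ms m n = n + m + 1 := rfl
    refine ⟨by omega, by omega, ?_, fun h => by omega, hxj⟩
    rw [abs_le]
    omega
  · intro x hx hxT
    obtain ⟨h1, h2, h3, h4⟩ := hinT x hxT
    exact hdis x hx h1 h2 h3 h4
  · intro s₂ b' hP2 hsub hcov hb' h1 h2 h3 h4
    rw [e1] at h1
    rw [e2] at h2 h3
    refine hS s₂ b' hP2 hsub (fun x hx => ?_) hb' (by linarith) h2 h3 h4
    rcases hcov x hx with h5 | h5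
    · exact Or.inl h5
    · exact Or.inr (hinW x h5)
  · intro s₂ hP2
    exact hFa s₂ (post_mono (by omega) hP2)

/-- One step sideways. -/
theorem stepL (hOne : OneStmt) (hN : GoodN N ρ) (hmn : 4 * m + 4 ≤ n) (hδ : 0 ≤ δ)
    (hδ16 : 16 * δ ≤ 1) (hSt : StepAt N p ε KK m n δ) (hVol : VolOK m n Reg Λ)
    (hV : Valid N p ε m n Reg C F X s) (hg : g = 1 ∨ g = -1) (hR : nbr z a g ∈ Reg)
    (hC : nbr z a g ∉ C) (hF : nbr z a g ∉ F) (s₁ : St k) (b : Pt k) (g' τ : ℤ)
    (hg' : g' = 1 ∨ g' = -1) (hτ : τ = 1 ∨ τ = -1) (i r : ℕ) (hi : i < 16) (hr : r < 16)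
    (hP : Post N p ε m n z a g i s s₁) (hb : bx b m ⊆ s₁.R)
    (hbj : ∀ j, j ≠ 0 → j ≠ 1 → |b j| ≤ n)
    (hb1 : 6 * Ms m n + n ≤ pc (10 * Ms m n) z a g b)
    (hb2 : pc (10 * Ms m n) z a g b + n ≤ 14 * Ms m n)
    (hb3 : -(4 * Ms m n) ≤ lc (10 * Ms m n) z a b - n - 2 * m - 1)
    (hb4 : lc (10 * Ms m n) z a b + n + 2 * m + 1 ≤ 4 * Ms m n)
    (hdis : ∀ x ∈ s₁.R ∪ s₁.E,
      (n : ℤ) + 1 ≤ g' * (lc (10 * Ms m n) z a x - lc (10 * Ms m n) z a b) →
      g' * (lc (10 * Ms m n) z a x - lc (10 * Ms m n) z a b) ≤ n + 2 * m + 1 →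
      0 ≤ τ * (pc (10 * Ms m n) z a g x - pc (10 * Ms m n) z a g b) →
      τ * (pc (10 * Ms m n) z a g x - pc (10 * Ms m n) z a g b) ≤ n → False)
    (Φ : Finset (Pt k × ℕ) → Prop) (βS βF : ℝ) (h0 : 0 ≤ βS) (hSF : βS ≤ βF)
    (hS : ∀ s₂ b', Post N p ε m n z a g (i + 1) s s₂ → s₁.R ⊆ s₂.R →
      (∀ x ∈ s₂.R ∪ s₂.E, x ∈ s₁.R ∪ s₁.E ∨
        (-(n : ℤ) ≤ pc (10 * Ms m n) z a g x - pc (10 * Ms m n) z a g b ∧
          pc (10 * Ms m n) z a g x - pc (10 * Ms m n) z a g b ≤ n ∧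
          -(n : ℤ) ≤ g' * (lc (10 * Ms m n) z a x - lc (10 * Ms m n) z a b) ∧
          g' * (lc (10 * Ms m n) z a x - lc (10 * Ms m n) z a b) ≤ n + 2 * m + 1)) →
      bx b' m ⊆ s₂.R →
      g' * (lc (10 * Ms m n) z a b' - lc (10 * Ms m n) z a b) = Ms m n →
      (m : ℤ) ≤ τ * (pc (10 * Ms m n) z a g b' - pc (10 * Ms m n) z a g b) →
      τ * (pc (10 * Ms m n) z a g b' - pc (10 * Ms m n) z a g b) ≤ n - m →
      (∀ j, j ≠ 0 → j ≠ 1 → |b' j| ≤ n) →
      PSt Λ KK s₂ Φ ≤ (1 - r * δ) * βS + r * δ * βF)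
    (hFa : ∀ s₂, Post N p ε m n z a g 16 s s₂ → PSt Λ KK s₂ Φ ≤ βF) :
    PSt Λ KK s₁ Φ ≤ (1 - ((r + 1 : ℕ) : ℝ) * δ) * βS + ((r + 1 : ℕ) : ℝ) * δ * βF := by
  have hrδ : (r : ℝ) * δ ≤ 1 := by
    have : (r : ℝ) ≤ 16 := by exact_mod_cast hr.le
    nlinarith
  refine le_trans ?_ (avg δ βS βF r hδ hSF)
  have hgτ : g * τ = 1 ∨ g * τ = -1 := by
    rcases hg with rfl | rfl <;> rcases hτ with rfl | rfl <;> norm_num
  have e1 : ∀ x : Pt k, g' * (x (axi k (!a)) - b (axi k (!a))) =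
      g' * (lc (10 * Ms m n) z a x - lc (10 * Ms m n) z a b) := by
    intro x
    unfold lc
    ring
  have e2 : ∀ x : Pt k, g * τ * (x (axi k (!(!a))) - b (axi k (!(!a)))) =
      τ * (pc (10 * Ms m n) z a g x - pc (10 * Ms m n) z a g b) := by
    intro x
    rw [Bool.not_not]
    unfold pc
    ring
  have hinT : ∀ x : Pt k, inT m n b (!a) g' (g * τ) x →
      (n : ℤ) + 1 ≤ g' * (lc (10 * Ms m n) z a x - lc (10 * Ms m n) z a b) ∧
      g' * (lc (10 * Ms m n) z a x - lc (10 * Ms m n) z a b) ≤ n + 2 * m + 1 ∧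
      0 ≤ τ * (pc (10 * Ms m n) z a g x - pc (10 * Ms m n) z a g b) ∧
      τ * (pc (10 * Ms m n) z a g x - pc (10 * Ms m n) z a g b) ≤ n := by
    intro x hx
    unfold inT at hx
    rw [e1, e2] at hx
    exact hx
  have hinW : ∀ x : Pt k, inW m n b (!a) g' (g * τ) x →
      -(n : ℤ) ≤ pc (10 * Ms m n) z a g x - pc (10 * Ms m n) z a g b ∧
          pc (10 * Ms m n) z a g x - pc (10 * Ms m n) z a g b ≤ n ∧
          -(n : ℤ) ≤ g' * (lc (10 * Ms m n) z a x - lc (10 * Ms m n) z a b) ∧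
          g' * (lc (10 * Ms m n) z a x - lc (10 * Ms m n) z a b) ≤ n + 2 * m + 1 := by
    intro x hx
    rcases hx with hx | hx
    · rw [box_iff (10 * Ms m n) z a g hg] at hx
      obtain ⟨h1, h2⟩ := hx
      rw [abs_le] at h1 h2
      refine ⟨h1.1, h1.2, ?_⟩
      rcases hg' with rfl | rfl <;> constructor <;> omega
    · obtain ⟨h1, h2, h3, h4⟩ := hinT x hx
      refine ⟨?_, ?_, by omega, h2⟩ <;>
      rcases hτ with rfl | rfl <;> linarith
  refine hOne k N ρ p ε m n δ hN hmn hδ hδ16 hSt Reg C F X Λ s s₁ z a g b (!a) g' (g * τ) i hVol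
    hV hg hR hC hF hg' hgτ hi hP hb hbj ?_ ?_ Φ _ βF (avg_nonneg δ βS βF r hδ h0 hSF hrδ)
    (avg_le δ βS βF r hSF hrδ) ?_ ?_
  · intro x hxj hx
    obtain ⟨h1, h1', h2, h3⟩ := hinW x hx
    have hM : Ms m n = n + m + 1 := rfl
    have h4 : |lc (10 * Ms m n) z a x| ≤ 4 * Ms m n := by
      rw [abs_le]
      rcases hg' with rfl | rfl <;> constructor <;> omega
    exact ⟨by omega, by omega, h4, fun h => by omega, hxj⟩
  · intro x hx hxT
    obtain ⟨h1, h2, h3, h4⟩ := hinT x hxT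
    exact hdis x hx h1 h2 h3 h4
  · intro s₂ b' hP2 hsub hcov hb' h1 h2 h3 h4
    rw [e1] at h1
    rw [e2] at h2 h3
    refine hS s₂ b' hP2 hsub (fun x hx => ?_) hb' h1 h2 h3 h4
    rcases hcov x hx with h5 | h5
    · exact Or.inl h5
    · exact Or.inr (hinW x h5)
  · intro s₂ hP2
    exact hFa s₂ (post_mono (by omega) hP2)

end

/-- PLZ. -/
theorem plz (hOne : OneStmt) : PlzStmt := by
  intro k N ρ p ε m n δ hN hmn hδ hδ16 hSt Reg C F X Λ s s' b z a g hVol hV hz hg hR hC hF hA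
    Φ βS βF h0 hSF hS hFa
  have hM : Ms m n = n + m + 1 := rfl
  obtain ⟨hP, hb, p1, p1', p2, p3, tier⟩ := hA
  rw [abs_le] at p2
  -- explored sites near the new block before the six steps
  have T0 : ∀ x ∈ s'.R ∪ s'.E, -(4 * Ms m n) ≤ pc (10 * Ms m n) z a g x - 10 * Ms m n →
      pc (10 * Ms m n) z a g x - 10 * Ms m n ≤ 4 * Ms m n →
      -(4 * Ms m n) ≤ lc (10 * Ms m n) z a x → lc (10 * Ms m n) z a x ≤ 4 * Ms m n →
      (pc (10 * Ms m n) z a g x - pc (10 * Ms m n) z a g b ≤ -n - 1 ∨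
        (pc (10 * Ms m n) z a g x - pc (10 * Ms m n) z a g b ≤ -m - 1 ∧
          -(2 * n - m) ≤ lc (10 * Ms m n) z a x - lc (10 * Ms m n) z a b ∧
          lc (10 * Ms m n) z a x - lc (10 * Ms m n) z a b ≤ 2 * n - m) ∨
        (pc (10 * Ms m n) z a g x - pc (10 * Ms m n) z a g b ≤ m ∧
          -(n - m) ≤ lc (10 * Ms m n) z a x - lc (10 * Ms m n) z a b ∧
          lc (10 * Ms m n) z a x - lc (10 * Ms m n) z a b ≤ n - m)) ∧
      -(Ms m n + n) ≤ lc (10 * Ms m n) z a x ∧ lc (10 * Ms m n) z a x ≤ Ms m n + n := by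
    intro x hx h1 h2 h3 h4
    have hn : nearB (10 * Ms m n) (nbr z a g) (4 * Ms m n) x := by
      rw [nearB_iff (10 * Ms m n) z a g hg, abs_le, abs_le]
      exact ⟨⟨h1, h2⟩, h3, h4⟩
    obtain ⟨h5, h6⟩ := tier x hx hn
    unfold Tier at h5
    rw [abs_le] at h5 h6
    rw [abs_le] at h5
    exact ⟨h5, h6⟩
  have key : PSt Λ KK s' Φ ≤ (1 - ((5 + 1 : ℕ) : ℝ) * δ) * βS + ((5 + 1 : ℕ) : ℝ) * δ * βF := by
    -- F0
    obtain ⟨τ0, hτ0, hτ0'⟩ : ∃ τ : ℤ, (τ = 1 ∨ τ = -1) ∧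
        ((0 < lc (10 * Ms m n) z a b ∧ τ = -1) ∨ (lc (10 * Ms m n) z a b ≤ 0 ∧ τ = 1)) := by
      by_cases h : 0 < lc (10 * Ms m n) z a b
      · exact ⟨-1, Or.inr rfl, Or.inl ⟨h, rfl⟩⟩
      · exact ⟨1, Or.inl rfl, Or.inr ⟨by omega, rfl⟩⟩
    refine stepF hOne hN hmn hδ hδ16 hSt hVol hV hg hR hC hF s' b τ0 hτ0 10 5 (by norm_num)
      (by norm_num) hP hb p3 (by omega) (by omega) (by omega) (by omega) ?_ Φ βS βF h0 hSF ?_ hFa
    · intro x hx h1 h2 h3 h4
      obtain ⟨h5, h6⟩ := T0 x hx (by omega) (by omega) (by omega) (by omega)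
      omega
    intro t1 c1 hP1 sub1 cov1 hc1 c1U c1V c1V' c1j
    have c1v : (0 < lc (10 * Ms m n) z a b ∧
        -(n - m : ℤ) ≤ lc (10 * Ms m n) z a c1 - lc (10 * Ms m n) z a b ∧
        lc (10 * Ms m n) z a c1 - lc (10 * Ms m n) z a b ≤ -m) ∨
        (lc (10 * Ms m n) z a b ≤ 0 ∧
        (m : ℤ) ≤ lc (10 * Ms m n) z a c1 - lc (10 * Ms m n) z a b ∧
        lc (10 * Ms m n) z a c1 - lc (10 * Ms m n) z a b ≤ n - m) := by
      rcases hτ0' with ⟨h, rfl⟩ | ⟨h, rfl⟩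
      · exact Or.inl ⟨h, by linarith, by linarith⟩
      · exact Or.inr ⟨h, by linarith, by linarith⟩
    clear c1V c1V' hτ0' hτ0
    -- L0
    refine stepL hOne hN hmn hδ hδ16 hSt hVol hV hg hR hC hF t1 b 1 1 (Or.inl rfl) (Or.inl rfl)
      11 4 (by norm_num) (by norm_num) hP1 (hb.trans sub1) p3 (by omega) (by omega) (by omega)
      (by omega) ?_ Φ βS βF h0 hSF ?_ hFa
    · intro x hx h1 h2 h3 h4
      rcases cov1 x hx with hx0 | hx1
      · obtain ⟨h5, h6⟩ := T0 x hx0 (by omega) (by omega) (by omega) (by omega)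
        omega
      · omega
    intro t2 c2 hP2 sub2 cov2 hc2 c2V c2U c2U' c2j
    rw [one_mul] at c2V c2U c2U'
    -- R0
    refine stepL hOne hN hmn hδ hδ16 hSt hVol hV hg hR hC hF t2 b (-1) 1 (Or.inr rfl) (Or.inl rfl)
      12 3 (by norm_num) (by norm_num) hP2 ((hb.trans sub1).trans sub2) p3 (by omega) (by omega)
      (by omega) (by omega) ?_ Φ βS βF h0 hSF ?_ hFa
    · intro x hx h1 h2 h3 h4
      rcases cov2 x hx with hx0 | hx2
      · rcases cov1 x hx0 with hx0 | hx1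
        · obtain ⟨h5, h6⟩ := T0 x hx0 (by omega) (by omega) (by omega) (by omega)
          omega
        · omega
      · omega
    intro t3 c3 hP3 sub3 cov3 hc3 c3V c3U c3U' c3j
    rw [one_mul] at c3U c3U'
    -- F1
    obtain ⟨τ1, hτ1, hτ1'⟩ : ∃ τ : ℤ, (τ = 1 ∨ τ = -1) ∧
        ((0 < lc (10 * Ms m n) z a c1 ∧ τ = -1) ∨ (lc (10 * Ms m n) z a c1 ≤ 0 ∧ τ = 1)) := by
      by_cases h : 0 < lc (10 * Ms m n) z a c1
      · exact ⟨-1, Or.inr rfl, Or.inl ⟨h, rfl⟩⟩
      · exact ⟨1, Or.inl rfl, Or.inr ⟨by omega, rfl⟩⟩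
    refine stepF hOne hN hmn hδ hδ16 hSt hVol hV hg hR hC hF t3 c1 τ1 hτ1 13 2 (by norm_num)
      (by norm_num) hP3 ((hc1.trans sub2).trans sub3) c1j (by omega) (by omega) (by omega)
      (by omega) ?_ Φ βS βF h0 hSF ?_ hFa
    · intro x hx h1 h2 h3 h4
      rcases cov3 x hx with hx0 | hx3
      · rcases cov2 x hx0 with hx0 | hx2
        · rcases cov1 x hx0 with hx0 | hx1
          · obtain ⟨h5, h6⟩ := T0 x hx0 (by omega) (by omega) (by omega) (by omega)
            omega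
          · omega
        · omega
      · omega
    intro t4 c4 hP4 sub4 cov4 hc4 c4U c4V c4V' c4j
    have c4v : (0 < lc (10 * Ms m n) z a c1 ∧
        -(n - m : ℤ) ≤ lc (10 * Ms m n) z a c4 - lc (10 * Ms m n) z a c1 ∧
        lc (10 * Ms m n) z a c4 - lc (10 * Ms m n) z a c1 ≤ -m) ∨
        (lc (10 * Ms m n) z a c1 ≤ 0 ∧
        (m : ℤ) ≤ lc (10 * Ms m n) z a c4 - lc (10 * Ms m n) z a c1 ∧
        lc (10 * Ms m n) z a c4 - lc (10 * Ms m n) z a c1 ≤ n - m) := by
      rcases hτ1' with ⟨h, rfl⟩ | ⟨h, rfl⟩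
      · exact Or.inl ⟨h, by linarith, by linarith⟩
      · exact Or.inr ⟨h, by linarith, by linarith⟩
    clear c4V c4V' hτ1' hτ1
    -- L1
    obtain ⟨τ2, hτ2, hτ2'⟩ : ∃ τ : ℤ, (τ = 1 ∨ τ = -1) ∧
        ((10 * Ms m n < pc (10 * Ms m n) z a g c2 ∧ τ = -1) ∨
          (pc (10 * Ms m n) z a g c2 ≤ 10 * Ms m n ∧ τ = 1)) := by
      by_cases h : 10 * Ms m n < pc (10 * Ms m n) z a g c2
      · exact ⟨-1, Or.inr rfl, Or.inl ⟨h, rfl⟩⟩
      · exact ⟨1, Or.inl rfl, Or.inr ⟨by omega, rfl⟩⟩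
    refine stepL hOne hN hmn hδ hδ16 hSt hVol hV hg hR hC hF t4 c2 1 τ2 (Or.inl rfl) hτ2
      14 1 (by norm_num) (by norm_num) hP4 ((hc2.trans sub3).trans sub4) c2j (by omega) (by omega)
      (by omega) (by omega) ?_ Φ βS βF h0 hSF ?_ hFa
    · intro x hx h1 h2 h3 h4
      have h34 : -(n : ℤ) ≤ pc (10 * Ms m n) z a g x - pc (10 * Ms m n) z a g c2 ∧
          pc (10 * Ms m n) z a g x - pc (10 * Ms m n) z a g c2 ≤ n := by
        rcases hτ2 with rfl | rfl <;> constructor <;> linarith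
      clear h3 h4
      rcases cov4 x hx with hx0 | hx4
      · rcases cov3 x hx0 with hx0 | hx3
        · rcases cov2 x hx0 with hx0 | hx2
          · rcases cov1 x hx0 with hx0 | hx1
            · obtain ⟨h5, h6⟩ := T0 x hx0 (by omega) (by omega) (by omega) (by omega)
              omega
            · omega
          · omega
        · omega
      · omega
    intro t5 c5 hP5 sub5 cov5 hc5 c5V c5U c5U' c5j
    rw [one_mul] at c5V
    have c5u : (10 * Ms m n < pc (10 * Ms m n) z a g c2 ∧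
        -(n - m : ℤ) ≤ pc (10 * Ms m n) z a g c5 - pc (10 * Ms m n) z a g c2 ∧
        pc (10 * Ms m n) z a g c5 - pc (10 * Ms m n) z a g c2 ≤ -m) ∨
        (pc (10 * Ms m n) z a g c2 ≤ 10 * Ms m n ∧
        (m : ℤ) ≤ pc (10 * Ms m n) z a g c5 - pc (10 * Ms m n) z a g c2 ∧
        pc (10 * Ms m n) z a g c5 - pc (10 * Ms m n) z a g c2 ≤ n - m) := by
      rcases hτ2' with ⟨h, rfl⟩ | ⟨h, rfl⟩
      · exact Or.inl ⟨h, by linarith, by linarith⟩
      · exact Or.inr ⟨h, by linarith, by linarith⟩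
    clear c5U c5U' hτ2' hτ2
    -- R1
    obtain ⟨τ3, hτ3, hτ3'⟩ : ∃ τ : ℤ, (τ = 1 ∨ τ = -1) ∧
        ((10 * Ms m n < pc (10 * Ms m n) z a g c3 ∧ τ = -1) ∨
          (pc (10 * Ms m n) z a g c3 ≤ 10 * Ms m n ∧ τ = 1)) := by
      by_cases h : 10 * Ms m n < pc (10 * Ms m n) z a g c3
      · exact ⟨-1, Or.inr rfl, Or.inl ⟨h, rfl⟩⟩
      · exact ⟨1, Or.inl rfl, Or.inr ⟨by omega, rfl⟩⟩
    refine stepL hOne hN hmn hδ hδ16 hSt hVol hV hg hR hC hF t5 c3 (-1) τ3 (Or.inr rfl) hτ3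
      15 0 (by norm_num) (by norm_num) hP5 ((hc3.trans sub4).trans sub5) c3j (by omega) (by omega)
      (by omega) (by omega) ?_ Φ βS βF h0 hSF ?_ hFa
    · intro x hx h1 h2 h3 h4
      have h34 : -(n : ℤ) ≤ pc (10 * Ms m n) z a g x - pc (10 * Ms m n) z a g c3 ∧
          pc (10 * Ms m n) z a g x - pc (10 * Ms m n) z a g c3 ≤ n := by
        rcases hτ3 with rfl | rfl <;> constructor <;> linarith
      clear h3 h4
      rcases cov5 x hx with hx0 | hx5
      · rcases cov4 x hx0 with hx0 | hx4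
        · rcases cov3 x hx0 with hx0 | hx3
          · rcases cov2 x hx0 with hx0 | hx2
            · rcases cov1 x hx0 with hx0 | hx1
              · obtain ⟨h5, h6⟩ := T0 x hx0 (by omega) (by omega) (by omega) (by omega)
                omega
              · omega
            · omega
          · omega
        · omega
      · omega
    intro t6 c6 hP6 sub6 cov6 hc6 c6V c6U c6U' c6j
    have c6u : (10 * Ms m n < pc (10 * Ms m n) z a g c3 ∧
        -(n - m : ℤ) ≤ pc (10 * Ms m n) z a g c6 - pc (10 * Ms m n) z a g c3 ∧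
        pc (10 * Ms m n) z a g c6 - pc (10 * Ms m n) z a g c3 ≤ -m) ∨
        (pc (10 * Ms m n) z a g c3 ≤ 10 * Ms m n ∧
        (m : ℤ) ≤ pc (10 * Ms m n) z a g c6 - pc (10 * Ms m n) z a g c3 ∧
        pc (10 * Ms m n) z a g c6 - pc (10 * Ms m n) z a g c3 ≤ n - m) := by
      rcases hτ3' with ⟨h, rfl⟩ | ⟨h, rfl⟩
      · exact Or.inl ⟨h, by linarith, by linarith⟩
      · exact Or.inr ⟨h, by linarith, by linarith⟩
    clear c6U c6U' hτ3' hτ3
    have hfin : PSt Λ KK t6 Φ ≤ βS := by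
      refine hS t6 hP6 ?_ ?_
      · -- the centre is hit
        refine ⟨b, ?_, ?_, fun i h1 h2 => ?_⟩
        · have hbb : b ∈ bx b m := by
            rw [mem_bx]
            intro i
            simp
          exact sub6 (sub5 (sub4 (sub3 (sub2 (sub1 (hb hbb))))))
        · rw [nearB_iff (10 * Ms m n) z a g hg, abs_le, abs_le]
          omega
        · have := p3 i h1 h2
          omega
      · -- the branch seeds
        intro a' g' hg' hR' hC' hF' hz'
        have hold : ∀ x ∈ s.R ∪ s.E, 0 < pc (10 * Ms m n) (nbr z a g) a' g' x →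
            pc (10 * Ms m n) (nbr z a g) a' g' x < 6 * Ms m n →
            |lc (10 * Ms m n) (nbr z a g) a' x| ≤ 2 * Ms m n → False := by
          intro x hx h1 h2 h3
          by_cases h4 : 4 * Ms m n < pc (10 * Ms m n) (nbr z a g) a' g' x
          · exact hV.mid _ hR hC hF a' g' hg' hR' hC' hF' x hx ⟨h4, h2, h3⟩
          · refine hV.z4 _ hR hC hF x hx ?_
            have hbox := (box_iff (10 * Ms m n) (nbr z a g) a' g' hg' (4 * Ms m n)
              (cen k (10 * Ms m n) (nbr z a g)) x).2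
            have e1 : pc (10 * Ms m n) (nbr z a g) a' g' (cen k (10 * Ms m n) (nbr z a g)) = 0 := by
              unfold pc
              ring
            have e2 : lc (10 * Ms m n) (nbr z a g) a' (cen k (10 * Ms m n) (nbr z a g)) = 0 := by
              unfold lc
              ring
            rw [e1, e2, sub_zero, sub_zero] at hbox
            refine hbox ⟨?_, by omega⟩
            rw [abs_le]
            omega
        -- all explored sites
        have hall : ∀ x ∈ t6.R ∪ t6.E, x ∈ s.R ∪ s.E ∨ (x ∈ s'.R ∪ s'.E ∧ Edg (Ms m n) n z a g x) ∨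
            (pc (10 * Ms m n) z a g x - pc (10 * Ms m n) z a g b ≤ 2 * Ms m n + m ∧
              lc (10 * Ms m n) z a x - lc (10 * Ms m n) z a b ≤ 2 * Ms m n + m ∧
              -(2 * Ms m n + m) ≤ lc (10 * Ms m n) z a x - lc (10 * Ms m n) z a b) := by
          intro x hx
          rcases cov6 x hx with hx0 | hx6
          · rcases cov5 x hx0 with hx0 | hx5
            · rcases cov4 x hx0 with hx0 | hx4
              · rcases cov3 x hx0 with hx0 | hx3
                · rcases cov2 x hx0 with hx0 | hx2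
                  · rcases cov1 x hx0 with hx0 | hx1
                    · rcases hP.cov x hx0 with h | h
                      · exact Or.inl h
                      · exact Or.inr (Or.inl ⟨hx0, h⟩)
                    · exact Or.inr (Or.inr ⟨by omega, by omega, by omega⟩)
                  · exact Or.inr (Or.inr ⟨by omega, by omega, by omega⟩)
                · exact Or.inr (Or.inr ⟨by omega, by omega, by omega⟩)
              · exact Or.inr (Or.inr ⟨by omega, by omega, by omega⟩)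
            · exact Or.inr (Or.inr ⟨by omega, by omega, by omega⟩)
          · exact Or.inr (Or.inr ⟨by omega, by omega, by omega⟩)
        by_cases haa : a' = a
        · subst haa
          have hgg : g' = g := by
            rcases hg' with rfl | rfl <;> rcases hg with rfl | rfl <;> try rfl
            · exact absurd (nbr_back z a' (-1)) (by simpa using hz')
            · exact absurd (nbr_back z a' 1) hz'
          subst hgg
          refine ⟨c4, hc4.trans (sub5.trans sub6), ?_, ?_, ?_, c4j, ?_⟩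
          · rw [(pc_fwd (10 * Ms m n) z a' g' hg c4).1]
            omega
          · rw [(pc_fwd (10 * Ms m n) z a' g' hg c4).1]
            omega
          · rw [(pc_fwd (10 * Ms m n) z a' g' hg c4).2, abs_le]
            omega
          · rintro x hx ⟨h1, h2, h3, h4⟩
            rcases hall x hx with h | ⟨h, h'⟩ | h
            · exact hold x h (by omega) h3 h4
            · obtain ⟨q1, q2, q3, q4, q5⟩ := h'
              rw [(pc_fwd (10 * Ms m n) z a' g' hg x).1] at h1 h2 h3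
              rw [(pc_fwd (10 * Ms m n) z a' g' hg x).2] at h4
              rw [abs_le] at h4 q3
              obtain ⟨h5, h6⟩ := T0 x h (by omega) (by omega) (by omega) (by omega)
              omega
            · rw [(pc_fwd (10 * Ms m n) z a' g' hg x).1,
                (pc_fwd (10 * Ms m n) z a' g' hg c4).1] at h2
              omega
        · have haa' : a' = !a := by
            cases a <;> cases a' <;> simp_all
          subst haa'
          have gabs : ∀ y : ℤ, |g * y| = |y| := by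
            intro y
            rw [abs_mul]
            rcases hg with rfl | rfl <;> simp
          have hfinal : ∀ c : Pt k, bx c m ⊆ t6.R → (∀ j, j ≠ 0 → j ≠ 1 → |c j| ≤ n) →
              g' * (lc (10 * Ms m n) z a c - lc (10 * Ms m n) z a b) = 2 * Ms m n →
              -Ms m n ≤ pc (10 * Ms m n) z a g c - 10 * Ms m n →
              pc (10 * Ms m n) z a g c - 10 * Ms m n ≤ Ms m n →
              TubeD m n (nbr z a g) (!a) g' t6 := by
            intro c hc hcj e1 e2 e3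
            have e4 : g' * lc (10 * Ms m n) z a c = g' * lc (10 * Ms m n) z a b + 2 * Ms m n := by
              linarith
            have e5 : -Ms m n ≤ g' * lc (10 * Ms m n) z a b ∧
                g' * lc (10 * Ms m n) z a b ≤ Ms m n := by
              rcases hg' with rfl | rfl <;> constructor <;> linarith
            refine ⟨c, hc, ?_, ?_, ?_, hcj, ?_⟩
            · rw [(pc_lat (10 * Ms m n) z a g g' hg c).1, e4]
              omega
            · rw [(pc_lat (10 * Ms m n) z a g g' hg c).1, e4]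
              omega
            · rw [(pc_lat (10 * Ms m n) z a g g' hg c).2, gabs, abs_le]
              exact ⟨e2, e3⟩
            · rintro x hx ⟨h1, h2, h3, h4⟩
              rcases hall x hx with h | ⟨h, h'⟩ | h
              · exact hold x h (by omega) h3 h4
              · obtain ⟨q1, q2, q3, q4, q5⟩ := h'
                rw [(pc_lat (10 * Ms m n) z a g g' hg x).1] at h1 h2 h3
                rw [(pc_lat (10 * Ms m n) z a g g' hg x).2, gabs] at h4
                rw [abs_le] at h4 q3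
                obtain ⟨h5, h6⟩ := T0 x h (by omega) (by omega) (by omega) (by omega)
                rcases hg' with rfl | rfl <;> omega
              · rw [(pc_lat (10 * Ms m n) z a g g' hg x).1,
                  (pc_lat (10 * Ms m n) z a g g' hg c).1, e4] at h2
                rcases hg' with rfl | rfl <;> omega
          rcases hg' with rfl | rfl
          · exact hfinal c5 (hc5.trans sub6) c5j (by omega) (by omega) (by omega)
          · exact hfinal c6 hc6 c6j (by omega) (by omega) (by omega)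
    simpa using hfin
  have e6 : ((5 + 1 : ℕ) : ℝ) = 6 := by norm_num
  rw [e6] at key
  exact key

end Pool.Agent.TP.H33
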