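import Pool.Agent.Helper28_TP.StS

/-!
# Squad TP (MP_e1bfc2_pr), module RUN: the structure event in the layered model
-/

set_option autoImplicit false

namespace Pool.Agent.TP.H33

open Pool.Agent.Helper33_FPP (Z2 dst Rect)

variable {k : ℕ}

/-! ### Grid preliminaries -/

theorem adj_nbr {z z' : ℤ × ℤ} (h : Z2.Adj z z') :
    ∃ (a : Bool) (g : ℤ), (g = 1 ∨ g = -1) ∧ z' = nbr z a g := by
  have h' : (z.1 - z'.1).natAbs + (z.2 - z'.2).natAbs = 1 := h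
  unfold nbr
  rcases (by omega : (z'.1 = z.1 + 1 ∧ z'.2 = z.2) ∨ (z'.1 = z.1 + -1 ∧ z'.2 = z.2) ∨
    (z'.1 = z.1 ∧ z'.2 = z.2 + 1) ∨ (z'.1 = z.1 ∧ z'.2 = z.2 + -1)) with h | h | h | h
  · exact ⟨false, 1, Or.inl rfl, Prod.ext h.1 h.2⟩
  · exact ⟨false, -1, Or.inr rfl, Prod.ext h.1 h.2⟩
  · exact ⟨true, 1, Or.inl rfl, Prod.ext h.1 h.2⟩
  · exact ⟨true, -1, Or.inr rfl, Prod.ext h.1 h.2⟩

theorem ZC_insert {S : Set (ℤ × ℤ)} (hS : ZC S) {z z' : ℤ × ℤ} (hz : z ∈ S)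
    (h : Z2.Adj z z') : ZC (insert z' S) := by
  have key : ∀ x ∈ (insert z' S : Set (ℤ × ℤ)), ∃ q : Z2.Walk x z, ∀ v ∈ q.support,
      v ∈ (insert z' S : Set (ℤ × ℤ)) := by
    intro x hx
    rcases hx with rfl | hx
    · refine ⟨SimpleGraph.Walk.cons h.symm SimpleGraph.Walk.nil, fun v hv => ?_⟩
      rw [SimpleGraph.Walk.support_cons, SimpleGraph.Walk.support_nil] at hv
      rcases List.mem_cons.1 hv with rfl | hv
      · exact Set.mem_insert _ _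
      · rw [List.mem_singleton] at hv
        rw [hv]
        exact Set.mem_insert_of_mem _ hz
    · obtain ⟨q, hq⟩ := hS x hx z hz
      exact ⟨q, fun v hv => Set.mem_insert_of_mem _ (hq v hv)⟩
  intro x hx y hy
  obtain ⟨q, hq⟩ := key x hx
  obtain ⟨q', hq'⟩ := key y hy
  refine ⟨q.append q'.reverse, fun v hv => ?_⟩
  rw [SimpleGraph.Walk.mem_support_append_iff, SimpleGraph.Walk.support_reverse,
    List.mem_reverse] at hv
  rcases hv with hv | hv
  · exact hq v hv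
  · exact hq' v hv

theorem ZC_insert' {C : Finset (ℤ × ℤ)} (hS : ZC (C : Set (ℤ × ℤ))) {z z' : ℤ × ℤ} (hz : z ∈ C)
    (h : Z2.Adj z z') : ZC ((insert z' C : Finset (ℤ × ℤ)) : Set (ℤ × ℤ)) := by
  rw [Finset.coe_insert]
  exact ZC_insert hS (Finset.mem_coe.2 hz) h

theorem ZC_singleton (o : ℤ × ℤ) : ZC ((({o} : Finset (ℤ × ℤ)) : Set (ℤ × ℤ))) := by
  intro x hx y hy
  rw [Finset.coe_singleton, Set.mem_singleton_iff] at hx hy
  subst hx
  subst hy
  refine ⟨SimpleGraph.Walk.nil, fun v hv => ?_⟩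
  rw [SimpleGraph.Walk.support_nil, List.mem_singleton] at hv
  rw [hv]
  simp

/-! ### Probabilities lie in the unit interval -/

theorem u01_of_val {p ε : ℝ} (hp : 0 < p) (hp1 : p < 1) (hε : 0 < ε) (hε1 : ε < 1)
    {q : Pt k × ℕ → ℝ} (h : ∀ v j, q (v, j) = 0 ∨ q (v, j) = 1 ∨ q (v, j) = q0 p ε (v, j))
    (V : Finset (Pt k × ℕ)) : U01 V q := by
  rintro ⟨v, j⟩ _
  rcases h v j with h | h | h
  · rw [h]
    exact ⟨le_rfl, zero_le_one⟩
  · rw [h]
    exact ⟨zero_le_one, le_rfl⟩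
  · rw [h]
    unfold q0
    split_ifs
    · exact ⟨hp.le, hp1.le⟩
    · exact ⟨hε.le, hε1.le⟩

theorem pst_le_one {p ε : ℝ} (hp : 0 < p) (hp1 : p < 1) (hε : 0 < ε) (hε1 : ε < 1) {K K' : ℕ}
    {s : St k} (hs : OKs p ε K s) (Λ : Finset (Pt k)) (Φ : Finset (Pt k × ℕ) → Prop) :
    PSt Λ K' s Φ ≤ 1 :=
  PS_le_one (u01_of_val hp hp1 hε hε1 hs.val _) _

/-! ### Suprema over valid states -/

/-- Supremum of the conditional probabilities over the valid states. -/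
noncomputable def GG (N : Finset (Pt k)) (p ε : ℝ) (m n : ℕ) (Λ : Finset (Pt k))
    (Φ : Finset (Pt k × ℕ) → Prop) (Reg : Finset (ℤ × ℤ)) (X : ℤ) (C F : Finset (ℤ × ℤ)) : ℝ :=
  sSup {r : ℝ | r = 0 ∨ ∃ s, Valid N p ε m n Reg C F X s ∧ r = PSt Λ KK s Φ}

theorem GG_le {N : Finset (Pt k)} {p ε : ℝ} {m n : ℕ} {Λ : Finset (Pt k)}
    {Φ : Finset (Pt k × ℕ) → Prop} {Reg : Finset (ℤ × ℤ)} {X : ℤ} {C F : Finset (ℤ × ℤ)} {B : ℝ}
    (hB : 0 ≤ B) (h : ∀ s, Valid N p ε m n Reg C F X s → PSt Λ KK s Φ ≤ B) :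
    GG N p ε m n Λ Φ Reg X C F ≤ B := by
  refine csSup_le ⟨0, Or.inl rfl⟩ ?_
  rintro r (rfl | ⟨s, hs, rfl⟩)
  · exact hB
  · exact h s hs

theorem le_GG {N : Finset (Pt k)} {p ε : ℝ} {m n : ℕ} {Λ : Finset (Pt k)}
    (hp : 0 < p) (hp1 : p < 1) (hε : 0 < ε) (hε1 : ε < 1)
    {Φ : Finset (Pt k × ℕ) → Prop} {Reg : Finset (ℤ × ℤ)} {X : ℤ} {C F : Finset (ℤ × ℤ)}
    {s : St k} (hs : Valid N p ε m n Reg C F X s) :
    PSt Λ KK s Φ ≤ GG N p ε m n Λ Φ Reg X C F := by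
  refine le_csSup ⟨1, ?_⟩ (Or.inr ⟨s, hs, rfl⟩)
  rintro r (rfl | ⟨s, hs, rfl⟩)
  · exact zero_le_one
  · exact pst_le_one hp hp1 hε hε1 hs.ok _ _

theorem rst_mono {p ε : ℝ} {X X' : ℤ} {q : Pt k × ℕ → ℝ} (h : Rst p ε X q) (hX : X ≤ X') :
    Rst p ε X' q :=
  ⟨fun v j hv => h.1 v j (hX.trans hv), h.2⟩

/-- One attempt in terms of the suprema. -/
theorem att_GG (hAtt : AttStmt) {N : Finset (Pt k)} {ρ : ℕ} {p ε : ℝ} {m n : ℕ} {δ : ℝ}
    (hN : GoodN N ρ) (hmn : 4 * m + 4 ≤ n) (hδ : 0 ≤ δ) (hδ16 : 16 * δ ≤ 1)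
    (hSt : StepAt N p ε KK m n δ) (hp : 0 < p) (hp1 : p < 1) (hε : 0 < ε) (hε1 : ε < 1)
    {Λ : Finset (Pt k)} {Φ : Finset (Pt k × ℕ) → Prop} {Reg : Finset (ℤ × ℤ)} {X : ℤ}
    (hVol : VolOK m n Reg Λ) {C F : Finset (ℤ × ℤ)} {z z' : ℤ × ℤ} (hz : z ∈ C) (hz' : z' ∈ Reg)
    (hadj : Z2.Adj z z') (hC : z' ∉ C) (hF : z' ∉ F) (βS βF : ℝ) (h0 : 0 ≤ βS) (hSF : βS ≤ βF)
    (hS : GG N p ε m n Λ Φ Reg X (insert z' C) F ≤ βS)
    (hFa : GG N p ε m n Λ Φ Reg X C (insert z' F) ≤ βF) :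
    GG N p ε m n Λ Φ Reg X C F ≤ (1 - 16 * δ) * βS + 16 * δ * βF := by
  obtain ⟨a, g, hg, rfl⟩ := adj_nbr hadj
  have hB : 0 ≤ (1 - 16 * δ) * βS + 16 * δ * βF := by
    have h1 : 0 ≤ 1 - 16 * δ := by linarith
    have h2 : 0 ≤ βF := h0.trans hSF
    positivity
  refine GG_le hB fun s hs => ?_
  exact hAtt k N ρ p ε m n δ hN hmn hδ hδ16 hSt Reg C F X Λ s z a g hVol hs hz hg hz' hC hF Φ
    βS βF h0 hSF (fun s' hs' => (le_GG hp hp1 hε hε1 hs').trans hS)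
    (fun s' hs' => (le_GG hp hp1 hε hε1 hs').trans hFa)

open Classical in
/-- The large connected sets. -/
noncomputable def TL (Reg : Finset (ℤ × ℤ)) (h : ℕ) : Finset (Finset (ℤ × ℤ)) :=
  Reg.powerset.filter (fun T => SC T ∧ T.card = 2 * h + 1)

open Classical in
/-- The small connected sets near the starting block. -/
noncomputable def TS (Reg : Finset (ℤ × ℤ)) (x₀ : ℤ) (h : ℕ) : Finset (Finset (ℤ × ℤ)) :=
  Reg.powerset.filter (fun T => SC T ∧ ∃ j : ℕ, 1 ≤ j ∧ j ≤ h ∧ T.card = j ∧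
      ((x₀, (h : ℤ) + j) ∈ T ∨ (x₀, (h : ℤ) - j) ∈ T))

/-- The rectangle of blocks. -/
noncomputable def RG (x x₂ : ℤ) (h : ℕ) : Finset (ℤ × ℤ) := Finset.Icc x x₂ ×ˢ Finset.Icc 0 (2 * (h : ℤ))

theorem mem_RG {x x₂ : ℤ} {h : ℕ} {z : ℤ × ℤ} :
    z ∈ RG x x₂ h ↔ x ≤ z.1 ∧ z.1 ≤ x₂ ∧ 0 ≤ z.2 ∧ z.2 ≤ 2 * (h : ℤ) := by
  unfold RG
  rw [Finset.mem_product, Finset.mem_Icc, Finset.mem_Icc]
  tauto

theorem filt_nonneg {𝒯 : Finset (Finset (ℤ × ℤ))} {d : ℝ} (hd : 0 ≤ d) (w : Finset (ℤ × ℤ) → ℝ)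
    (hw : ∀ T, 0 ≤ w T) (C F : Finset (ℤ × ℤ)) :
    0 ≤ ∑ T ∈ 𝒯.filter (fun T => Disjoint T C), w T * d ^ (T \ F).card :=
  Finset.sum_nonneg fun T _ => mul_nonneg (hw T) (pow_nonneg hd _)

/-- Invariant of the second phase. -/
def I2 (x x₂ : ℤ) (h : ℕ) (C F : Finset (ℤ × ℤ)) : Prop :=
  C ⊆ RG x x₂ h ∧ F ⊆ RG x x₂ h ∧ Disjoint C F ∧ ZC (C : Set (ℤ × ℤ)) ∧ (∃ u ∈ C, u.1 = x) ∧
    (∃ u ∈ C, u.2 = 0) ∧ ∃ u ∈ C, u.2 = 2 * (h : ℤ)

/-- Invariant of the first phase. -/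
def I1 (x : ℤ) (h : ℕ) (C F : Finset (ℤ × ℤ)) : Prop :=
  C ⊆ RG x (x + 2 * h) h ∧ F ⊆ RG x (x + 2 * h) h ∧ Disjoint C F ∧ ZC (C : Set (ℤ × ℤ)) ∧
    (x, (h : ℤ)) ∈ C

theorem strC_mono {x₀ x x₁ x₂ H : ℤ} {C : Finset (ℤ × ℤ)} (hx : x₀ ≤ x)
    (h : StrC x x₁ x₂ H C) : StrC x₀ x₁ x₂ H C := by
  obtain ⟨h1, h2, h3, h4, h5⟩ := h
  refine ⟨fun z hz => ?_, h2, h3, h4, h5⟩
  obtain ⟨g1, g2, g3, g4⟩ := h1 z hz
  exact ⟨hx.trans g1, g2, g3, g4⟩

/-- Second phase. -/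
theorem phase2 (hAtt : AttStmt) (hPot : PotStmt) (hDu2 : Du2Stmt) (hTerm : TermStmt)
    {N : Finset (Pt k)} {ρ : ℕ} {p ε : ℝ} {m n : ℕ} {δ : ℝ}
    (hN : GoodN N ρ) (hmn : 4 * m + 4 ≤ n) (hδ : 0 ≤ δ) (hδ16 : 16 * δ ≤ 1)
    (hSt : StepAt N p ε KK m n δ) (hp : 0 < p) (hp1 : p < 1) (hε : 0 < ε) (hε1 : ε < 1)
    {Λ : Finset (Pt k)} {x₀ x x₁ x₂ X : ℤ} {h : ℕ} (hh : 1 ≤ h) (hx0 : x₀ ≤ x)
    (hx1 : x + 2 * h ≤ x₁) (hx2 : x₁ + 2 * h ≤ x₂) (hVol : VolOK m n (RG x x₂ h) Λ)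
    (C F : Finset (ℤ × ℤ)) (hI : I2 x x₂ h C F) :
    GG N p ε m n Λ (fun A => ¬ StrEv N (10 * (n + m + 1)) (2 * (n + m + 1)) x₀ x₁ x₂ (2 * h)
      (A.image Prod.fst)) (RG x x₂ h) X C F ≤
      ∑ T ∈ (TL (RG x x₂ h) h).filter (fun T => Disjoint T C), (1 : ℝ) *
        (16 * δ) ^ (T \ F).card := by
  classical
  refine hPot (RG x x₂ h) (16 * δ) (by linarith) hδ16 (TL (RG x x₂ h) h) (fun _ => 1)
    (fun _ => zero_le_one) _ (I2 x x₂ h) (fun C F hI => ⟨hI.1, hI.2.1, hI.2.2.1⟩) ?_ ?_ C F hI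
  · rintro C F ⟨i1, i2, i3, i4, i5, i6, i7⟩ z hz z' hz' hadj hC hF
    refine ⟨⟨?_, i2, ?_, ZC_insert' i4 hz hadj, ?_, ?_, ?_⟩, ⟨i1, ?_, ?_, i4, i5, i6, i7⟩, ?_⟩
    · exact Finset.insert_subset hz' i1
    · rw [Finset.disjoint_insert_left]
      exact ⟨hF, i3⟩
    · obtain ⟨u, hu, hu'⟩ := i5
      exact ⟨u, Finset.mem_insert_of_mem hu, hu'⟩
    · obtain ⟨u, hu, hu'⟩ := i6
      exact ⟨u, Finset.mem_insert_of_mem hu, hu'⟩
    · obtain ⟨u, hu, hu'⟩ := i7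
      exact ⟨u, Finset.mem_insert_of_mem hu, hu'⟩
    · exact Finset.insert_subset hz' i2
    · rw [Finset.disjoint_insert_right]
      exact ⟨hC, i3⟩
    · intro βS βF h0 hSF hS hFa
      exact att_GG hAtt hN hmn hδ hδ16 hSt hp hp1 hε hε1 hVol hz hz' hadj hC hF βS βF h0 hSF hS hFa
  · rintro C F ⟨i1, i2, i3, i4, i5, i6, i7⟩ hterm
    have hnn : (0 : ℝ) ≤ ∑ T ∈ (TL (RG x x₂ h) h).filter (fun T => Disjoint T C), (1 : ℝ) *
        (16 * δ) ^ (T \ F).card :=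
      filt_nonneg (by linarith) (fun _ => 1) (fun _ => zero_le_one) C F
    by_cases hT : ∃ T ⊆ F, SC T ∧ T.card = 2 * h + 1
    · obtain ⟨T, hTF, hTS, hTc⟩ := hT
      have h1 : (1 : ℝ) ≤ ∑ T ∈ (TL (RG x x₂ h) h).filter (fun T => Disjoint T C), (1 : ℝ) *
          (16 * δ) ^ (T \ F).card := by
        have hmem : T ∈ (TL (RG x x₂ h) h).filter (fun T => Disjoint T C) := by
          rw [Finset.mem_filter]
          refine ⟨Finset.mem_filter.2 ⟨Finset.mem_powerset.2 (hTF.trans i2), hTS, hTc⟩, ?_⟩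
          exact (Finset.disjoint_of_subset_right hTF i3).symm
        have h2 := Finset.single_le_sum (f := fun T : Finset (ℤ × ℤ) => (1 : ℝ) *
          (16 * δ) ^ (T \ F).card) (fun T _ => mul_nonneg zero_le_one
            (pow_nonneg (by linarith) _)) hmem
        have h3 : (1 : ℝ) * (16 * δ) ^ (T \ F).card = 1 := by
          rw [Finset.sdiff_eq_empty_iff_subset.2 hTF]
          simp
        have h4 : (1 : ℝ) * (16 * δ) ^ (T \ F).card ≤ ∑ T ∈ (TL (RG x x₂ h) h).filter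
          (fun T => Disjoint T C), (1 : ℝ) * (16 * δ) ^ (T \ F).card := h2
        rw [h3] at h4
        exact h4
      refine GG_le hnn fun s hs => ?_
      exact (pst_le_one hp hp1 hε hε1 hs.ok _ _).trans h1
    · refine GG_le hnn fun s hs => ?_
      have hstr : StrC x x₁ x₂ (2 * (h : ℤ)) C := by
        refine hDu2 x x₁ x₂ h C F hh hx1 hx2 ?_ i4 i5 i6 i7 ?_ ?_
        · intro u hu
          exact mem_RG.1 (i1 (Finset.mem_coe.1 hu))
        · intro u hu v hv hadj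
          exact hterm u hu v (mem_RG.2 hv) hadj
        · intro T hTF hTS hTc
          exact hT ⟨T, hTF, hTS, hTc⟩
      rw [hTerm k N ρ p ε m n hN hp hp1 hε hε1 (RG x x₂ h) C F X x₀ x₁ x₂ (2 * (h : ℤ)) Λ s i1 i2
        hVol hs (strC_mono hx0 hstr)]
      exact hnn

/-- First phase. -/
theorem phase1 (hAtt : AttStmt) (hPot : PotStmt) (hDu1 : Du1Stmt) (hDu2 : Du2Stmt)
    (hCnt : CntStmt) (hTerm : TermStmt)
    {N : Finset (Pt k)} {ρ : ℕ} {p ε : ℝ} {m n : ℕ} {δ : ℝ}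
    (hN : GoodN N ρ) (hmn : 4 * m + 4 ≤ n) (hδ : 0 ≤ δ) (hδ16 : 1024 * δ ≤ 1 / 16)
    (hSt : StepAt N p ε KK m n δ) (hp : 0 < p) (hp1 : p < 1) (hε : 0 < ε) (hε1 : ε < 1)
    {Λ : Finset (Pt k)} {x₀ x x₁ x₂ : ℤ} {h : ℕ} (hh : 1 ≤ h) (hx0 : x₀ ≤ x)
    (hx1 : x + 2 * h ≤ x₁) (hx2 : x₁ + 2 * h ≤ x₂) (hVol : VolOK m n (RG x x₂ h) Λ)
    (f : ℝ) (hf0 : 0 ≤ f)
    (hf : ∀ q : Pt k × ℕ → ℝ, Rst p ε (10 * Ms m n * (x + (2 * h + 4)) - 20 * Ms m n) q →
      PS (Λ ×ˢ Finset.range (KK + 1)) q (fun A => ¬ StrEv N (10 * (n + m + 1))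
        (2 * (n + m + 1)) x₀ x₁ x₂ (2 * h) (A.image Prod.fst)) ≤ f) :
    GG N p ε m n Λ (fun A => ¬ StrEv N (10 * (n + m + 1)) (2 * (n + m + 1)) x₀ x₁ x₂ (2 * h)
      (A.image Prod.fst)) (RG x x₂ h) (10 * Ms m n * x - 20 * Ms m n) {(x, (h : ℤ))} ∅ ≤
      f / 4 + (RG x x₂ h).card * (1024 * δ) ^ (2 * h + 1) := by
  classical
  set Φ : Finset (Pt k × ℕ) → Prop := fun A => ¬ StrEv N (10 * (n + m + 1))
    (2 * (n + m + 1)) x₀ x₁ x₂ (2 * h) (A.image Prod.fst) with hΦ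
  have hδ1 : 16 * δ ≤ 1 := by linarith
  have hMpos : 0 < Ms m n := by
    unfold Ms
    omega
  set w : Finset (ℤ × ℤ) → ℝ := fun T => if T.card = 2 * h + 1 then 1 else f with hw
  have hw0 : ∀ T, 0 ≤ w T := by
    intro T
    simp only [hw]
    split_ifs
    · exact zero_le_one
    · exact hf0
  set 𝒯 : Finset (Finset (ℤ × ℤ)) := TS (RG x x₂ h) x h ∪ TL (RG x x₂ h) h with h𝒯
  have hmain := hPot (RG x (x + 2 * h) h) (16 * δ) (by linarith) hδ1 𝒯 w hw0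
    (GG N p ε m n Λ Φ (RG x x₂ h) (10 * Ms m n * x - 20 * Ms m n)) (I1 x h)
    (fun C F hI => ⟨hI.1, hI.2.1, hI.2.2.1⟩) ?_ ?_ {(x, (h : ℤ))} ∅ ?_
  · refine hmain.trans ?_
    have hc1 := (hCnt (RG x x₂ h) (16 * δ) (by linarith) (by linarith) h x
      (TS (RG x x₂ h) x h)).1 (fun T hT => by
        have := (Finset.mem_filter.1 hT).2
        exact this)
    have hc2 := (hCnt (RG x x₂ h) (16 * δ) (by linarith) (by linarith) h x
      (TL (RG x x₂ h) h)).2 (fun T hT => by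
        obtain ⟨h1, h2⟩ := Finset.mem_filter.1 hT
        exact ⟨Finset.mem_powerset.1 h1, h2⟩)
    calc ∑ T ∈ 𝒯.filter (fun T => Disjoint T {(x, (h : ℤ))}), w T * (16 * δ) ^ (T \ ∅).card
        ≤ ∑ T ∈ 𝒯, w T * (16 * δ) ^ T.card := by
          have e : ∀ T : Finset (ℤ × ℤ), (T \ ∅) = T := fun T => Finset.sdiff_empty
          simp only [e]
          refine Finset.sum_le_sum_of_subset_of_nonneg (Finset.filter_subset _ _) ?_
          intro T _ _
          exact mul_nonneg (hw0 T) (pow_nonneg (by linarith) _)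
      _ ≤ ∑ T ∈ TS (RG x x₂ h) x h, w T * (16 * δ) ^ T.card +
          ∑ T ∈ TL (RG x x₂ h) h, w T * (16 * δ) ^ T.card := by
          rw [h𝒯, ← Finset.sum_union_inter]
          have : 0 ≤ ∑ T ∈ TS (RG x x₂ h) x h ∩ TL (RG x x₂ h) h, w T * (16 * δ) ^ T.card :=
            Finset.sum_nonneg fun T _ => mul_nonneg (hw0 T) (pow_nonneg (by linarith) _)
          linarith
      _ = f * ∑ T ∈ TS (RG x x₂ h) x h, (16 * δ) ^ T.card +
          ∑ T ∈ TL (RG x x₂ h) h, (16 * δ) ^ T.card := by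
          rw [Finset.mul_sum]
          congr 1
          · refine Finset.sum_congr rfl fun T hT => ?_
            obtain ⟨_, _, j, _, hj, hc, _⟩ := Finset.mem_filter.1 hT
            have : w T = f := by
              simp only [hw]
              rw [if_neg (by omega)]
            rw [this]
          · refine Finset.sum_congr rfl fun T hT => ?_
            obtain ⟨_, _, hc⟩ := Finset.mem_filter.1 hT
            have : w T = 1 := by
              simp only [hw]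
              rw [if_pos hc]
            rw [this, one_mul]
      _ ≤ f * (1 / 4) + (RG x x₂ h).card * (64 * (16 * δ)) ^ (2 * h + 1) :=
          add_le_add (mul_le_mul_of_nonneg_left hc1 hf0) hc2
      _ = f / 4 + (RG x x₂ h).card * (1024 * δ) ^ (2 * h + 1) := by
          have e : 64 * (16 * δ) = 1024 * δ := by ring
          rw [e]
          ring
  · rintro C F ⟨i1, i2, i3, i4, i5⟩ z hz z' hz' hadj hC hF
    have hz'' : z' ∈ RG x x₂ h := by
      obtain ⟨g1, g2, g3, g4⟩ := mem_RG.1 hz'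
      exact mem_RG.2 ⟨g1, by omega, g3, g4⟩
    refine ⟨⟨?_, i2, ?_, ZC_insert' i4 hz hadj, Finset.mem_insert_of_mem i5⟩,
      ⟨i1, ?_, ?_, i4, i5⟩, ?_⟩
    · exact Finset.insert_subset hz' i1
    · rw [Finset.disjoint_insert_left]
      exact ⟨hF, i3⟩
    · exact Finset.insert_subset hz' i2
    · rw [Finset.disjoint_insert_right]
      exact ⟨hC, i3⟩
    · intro βS βF h0 hSF hS hFa
      exact att_GG hAtt hN hmn hδ hδ1 hSt hp hp1 hε hε1 hVol hz hz'' hadj hC hF βS βF h0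
        hSF hS hFa
  · rintro C F ⟨i1, i2, i3, i4, i5⟩ hterm
    have hsubR : RG x (x + 2 * h) h ⊆ RG x x₂ h := by
      intro u hu
      obtain ⟨g1, g2, g3, g4⟩ := mem_RG.1 hu
      exact mem_RG.2 ⟨g1, by omega, g3, g4⟩
    have hdu := hDu1 x h (C : Set (ℤ × ℤ)) F hh (fun u hu => mem_RG.1 (i1 (Finset.mem_coe.1 hu)))
      i4 (Finset.mem_coe.2 i5) (fun u hu v hv hadj => by
        rcases hterm u (Finset.mem_coe.1 hu) v (mem_RG.2 hv) hadj with h1 | h1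
        · exact Or.inl (Finset.mem_coe.2 h1)
        · exact Or.inr h1)
    rcases hdu with ⟨⟨u, hu, hu0⟩, v, hv, hv0⟩ | ⟨j, hj1, hjh, T, hTF, hTc, hTS, hTm⟩
    · -- both rows are touched: second phase
      have hI2 : I2 x x₂ h C F :=
        ⟨i1.trans hsubR, i2.trans hsubR, i3, i4, ⟨_, i5, rfl⟩, ⟨u, Finset.mem_coe.1 hu, hu0⟩,
          ⟨v, Finset.mem_coe.1 hv, hv0⟩⟩
      have h2 := phase2 hAtt hPot hDu2 hTerm hN hmn hδ hδ1 hSt hp hp1 hε hε1 (x₀ := x₀)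
        (X := 10 * Ms m n * x - 20 * Ms m n) hh hx0 hx1 hx2 hVol C F hI2
      refine h2.trans ?_
      calc ∑ T ∈ (TL (RG x x₂ h) h).filter (fun T => Disjoint T C), (1 : ℝ) *
            (16 * δ) ^ (T \ F).card
          = ∑ T ∈ (TL (RG x x₂ h) h).filter (fun T => Disjoint T C), w T *
            (16 * δ) ^ (T \ F).card := by
            refine Finset.sum_congr rfl fun T hT => ?_
            obtain ⟨hT1, _⟩ := Finset.mem_filter.1 hT
            obtain ⟨_, _, hc⟩ := Finset.mem_filter.1 hT1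
            have : w T = 1 := by
              simp only [hw]
              rw [if_pos hc]
            rw [this]
        _ ≤ ∑ T ∈ 𝒯.filter (fun T => Disjoint T C), w T * (16 * δ) ^ (T \ F).card := by
            refine Finset.sum_le_sum_of_subset_of_nonneg ?_ ?_
            · exact Finset.filter_subset_filter _ Finset.subset_union_right
            · intro T _ _
              exact mul_nonneg (hw0 T) (pow_nonneg (by linarith) _)
    · -- a small set of failed blocks: restart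
      have hmem : T ∈ 𝒯.filter (fun T => Disjoint T C) := by
        rw [Finset.mem_filter]
        refine ⟨Finset.mem_union_left _ (Finset.mem_filter.2
          ⟨Finset.mem_powerset.2 ((hTF.trans i2).trans hsubR), hTS, j, hj1, hjh, hTc, hTm⟩), ?_⟩
        exact (Finset.disjoint_of_subset_right hTF i3).symm
      have h1 : f ≤ ∑ T ∈ 𝒯.filter (fun T => Disjoint T C), w T * (16 * δ) ^ (T \ F).card := by
        have h2 := Finset.single_le_sum (f := fun T : Finset (ℤ × ℤ) => w T *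
          (16 * δ) ^ (T \ F).card) (fun T _ => mul_nonneg (hw0 T)
            (pow_nonneg (by linarith) _)) hmem
        have h3 : w T * (16 * δ) ^ (T \ F).card = f := by
          have hwT : w T = f := by
            simp only [hw]
            rw [if_neg (by omega)]
          rw [Finset.sdiff_eq_empty_iff_subset.2 hTF, hwT]
          simp
        have h4 : w T * (16 * δ) ^ (T \ F).card ≤ ∑ T ∈ 𝒯.filter
          (fun T => Disjoint T C), w T * (16 * δ) ^ (T \ F).card := h2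
        rw [h3] at h4
        exact h4
      refine GG_le (hf0.trans h1) fun s hs => ?_
      refine (hf s.q ⟨fun v j' hv => ?_, hs.ok.val⟩).trans h1
      by_contra hne
      rcases hs.loc v j' hne with h5 | ⟨z, hz, h5⟩
      · have : 10 * Ms m n * (x + (2 * h + 4)) = 10 * Ms m n * x + 10 * Ms m n * (2 * h + 4) := by
          ring
        have h6 : 0 ≤ 10 * Ms m n * (2 * (h : ℤ) + 4) := by positivity
        omega
      · have hz1 : z ∈ RG x (x + 2 * h) h := by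
          rcases Finset.mem_union.1 hz with hz | hz
          · exact i1 hz
          · exact i2 hz
        obtain ⟨g1, g2, g3, g4⟩ := mem_RG.1 hz1
        have h6 : 10 * Ms m n * z.1 ≤ 10 * Ms m n * (x + 2 * h) :=
          mul_le_mul_of_nonneg_left g2 (by omega)
        have h7 : 10 * Ms m n * (x + (2 * h + 4)) = 10 * Ms m n * (x + 2 * h) +
            40 * Ms m n := by ring
        omega
  · refine ⟨?_, Finset.empty_subset _, Finset.disjoint_empty_right _, ZC_singleton _,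
      Finset.mem_singleton_self _⟩
    rw [Finset.singleton_subset_iff]
    exact mem_RG.2 ⟨le_rfl, by
      show x ≤ x + 2 * (h : ℤ)
      omega, by
      show (0 : ℤ) ≤ h
      omega, by
      show (h : ℤ) ≤ 2 * h
      omega⟩

/-- The recursion. -/
theorem recur (c δ f β : ℝ) (hc0 : 0 ≤ c) (hδ : 0 ≤ δ)
    (hδ16 : 1024 * δ ≤ 1 / 16) (hf0 : 0 ≤ f) (hβ : 0 ≤ β) :
    c * ((1 - 6 * δ) * (f / 4 + β) + 6 * δ * (f + β)) + (1 - c) * (f + β) ≤
      (1 - c / 2) * f + β := by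
  have h1 : c * ((1 - 6 * δ) * (f / 4 + β) + 6 * δ * (f + β)) + (1 - c) * (f + β) =
      (1 - c / 2) * f + β - c * f * (1 / 4 - 9 / 2 * δ) := by ring
  rw [h1]
  have h2 : 0 ≤ 1 / 4 - 9 / 2 * δ := by linarith
  have h3 : 0 ≤ c * f * (1 / 4 - 9 / 2 * δ) := by positivity
  linarith

/-- RUN. -/
theorem run (hAtt : AttStmt) (hInit : InitStmt) (hPot : PotStmt) (hDu1 : Du1Stmt)
    (hDu2 : Du2Stmt) (hCnt : CntStmt) (hTerm : TermStmt) : RunStmt := by
  intro k N ρ p ε m n δ hN hmn hp hp1 hε hε1 hδ hδ16 hSt Λ x₀ x₁ x₂ h L hh hx1 hx2 hVol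
  classical
  set Φ : Finset (Pt k × ℕ) → Prop := fun A => ¬ StrEv N (10 * (n + m + 1))
    (2 * (n + m + 1)) x₀ x₁ x₂ (2 * h) (A.image Prod.fst) with hΦ
  set c : ℝ := p ^ ((2 * m + 1) ^ (k + 2)) with hc
  set β : ℝ := (x₂ - x₀ + 1) * (2 * h + 1) * (1024 * δ) ^ (2 * h + 1) with hβ
  have hM : Ms m n = n + m + 1 := rfl
  have hMpos : 0 < Ms m n := by omega
  have hc0 : 0 ≤ c := by positivity
  have hc1 : c ≤ 1 := pow_le_one₀ hp.le hp1.le
  have hL0 : (0 : ℤ) ≤ L * (2 * h + 4) := by positivity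
  have hx02 : x₀ ≤ x₂ := by omega
  have hx02' : (0 : ℝ) ≤ (x₂ : ℝ) - x₀ + 1 := by
    have : (x₀ : ℝ) ≤ x₂ := by exact_mod_cast hx02
    linarith
  have hβ0 : 0 ≤ β := by positivity
  have key : ∀ j : ℕ, j ≤ L → ∀ q : Pt k × ℕ → ℝ,
      Rst p ε (10 * Ms m n * (x₀ + ((L : ℤ) - j) * (2 * h + 4)) - 20 * Ms m n) q →
      PS (Λ ×ˢ Finset.range (KK + 1)) q Φ ≤ (1 - c / 2) ^ j + j * β := by
    intro j
    induction j with
    | zero =>
      intro _ q hq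
      rw [pow_zero]
      have := PS_le_one (u01_of_val hp hp1 hε hε1 hq.2 (Λ ×ˢ Finset.range (KK + 1))) Φ
      simpa using this
    | succ j ih =>
      intro hj q hq
      have ih' := ih (by omega)
      set f : ℝ := (1 - c / 2) ^ j + j * β with hf
      have hf0 : 0 ≤ f := by
        have h1 : 0 ≤ 1 - c / 2 := by linarith
        positivity
      set x : ℤ := x₀ + ((L : ℤ) - ((j + 1 : ℕ) : ℤ)) * (2 * h + 4) with hx
      have hxx : x + (2 * h + 4) = x₀ + ((L : ℤ) - j) * (2 * h + 4) := by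
        rw [hx]
        push_cast
        ring
      have hLj : (0 : ℤ) ≤ (L : ℤ) - ((j + 1 : ℕ) : ℤ) := by
        have : ((j + 1 : ℕ) : ℤ) ≤ L := by exact_mod_cast hj
        linarith
      have hx0 : x₀ ≤ x := by
        have : 0 ≤ ((L : ℤ) - ((j + 1 : ℕ) : ℤ)) * (2 * h + 4) := by positivity
        omega
      have hxx1 : x + (2 * h + 4) ≤ x₁ := by
        rw [hxx]
        have h1 : ((L : ℤ) - j) * (2 * h + 4) ≤ L * (2 * h + 4) :=
          mul_le_mul_of_nonneg_right (by omega) (by positivity)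
        omega
      have hVol' : VolOK m n (RG x x₂ h) Λ := by
        intro z hz v hv hv'
        refine hVol z ?_ v hv hv'
        obtain ⟨g1, g2, g3, g4⟩ := mem_RG.1 hz
        rw [Finset.mem_product, Finset.mem_Icc, Finset.mem_Icc]
        exact ⟨⟨hx0.trans g1, g2⟩, g3, g4⟩
      have hph := phase1 hAtt hPot hDu1 hDu2 hCnt hTerm hN hmn hδ hδ16 hSt hp hp1 hε hε1
        (x₀ := x₀) (x := x) (x₁ := x₁) (x₂ := x₂) (h := h) hh hx0 (by omega) hx2 hVol' f hf0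
        (fun q' hq' => ih' q' (by rw [hxx] at hq'; exact hq'))
      have hcard : ((RG x x₂ h).card : ℝ) * (1024 * δ) ^ (2 * h + 1) ≤ β := by
        have h1 : ((RG x x₂ h).card : ℝ) ≤ ((x₂ : ℝ) - x₀ + 1) * (2 * h + 1) := by
          unfold RG
          rw [Finset.card_product, Int.card_Icc, Int.card_Icc]
          have e1 : (((x₂ + 1 - x).toNat : ℕ) : ℝ) ≤ (x₂ : ℝ) - x₀ + 1 := by
            have : (((x₂ + 1 - x).toNat : ℕ) : ℤ) ≤ x₂ - x₀ + 1 := by omega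
            exact_mod_cast this
          have e2 : (((2 * (h : ℤ) + 1 - 0).toNat : ℕ) : ℝ) = 2 * h + 1 := by
            have : (((2 * (h : ℤ) + 1 - 0).toNat : ℕ) : ℤ) = 2 * h + 1 := by omega
            exact_mod_cast this
          rw [Nat.cast_mul, e2]
          exact mul_le_mul_of_nonneg_right e1 (by positivity)
        exact mul_le_mul_of_nonneg_right h1 (by positivity)
      have hSt' : StepAt N p ε KK m n δ := hSt
      have hin := hInit k N ρ p ε m n δ hN hmn hp hp1 hε hε1 hδ (by linarith) hSt'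
        (RG x x₂ h) Λ (x, (h : ℤ)) q hVol' (mem_RG.2 ⟨le_rfl, by
          show x ≤ x₂
          omega, by
          show (0 : ℤ) ≤ h
          omega, by
          show (h : ℤ) ≤ 2 * h
          omega⟩) (fun z hz => (mem_RG.1 hz).1) hq Φ (f / 4 + β) (f + β) (by positivity)
        (by linarith) (fun s' hs' => ?_) (fun q' hq' => ?_)
      · refine hin.trans ?_
        refine (recur c δ f β hc0 hδ hδ16 hf0 hβ0).trans ?_
        have h2 : (1 - c / 2) * f + β = (1 - c / 2) ^ (j + 1) + (1 - c / 2) * (j * β) + β := by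
          rw [hf]
          ring
        rw [h2]
        have h3 : (1 - c / 2) * (j * β) ≤ 1 * (j * β) :=
          mul_le_mul_of_nonneg_right (by linarith) (by positivity)
        push_cast
        linarith
      · have h4 := le_GG hp hp1 hε hε1 (Λ := Λ) (Φ := Φ) hs'
        have h5 := h4.trans hph
        linarith
      · have h6 := ih' q' (rst_mono hq' ?_)
        · linarith
        · rw [← hxx]
          show 10 * Ms m n * x + 14 * Ms m n + 1 ≤ 10 * Ms m n * (x + (2 * h + 4)) - 20 * Ms m n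
          have h7 : 10 * Ms m n * (x + (2 * h + 4)) = 10 * Ms m n * x + 40 * Ms m n +
              20 * (Ms m n * h) := by ring
          have h8 : Ms m n * 1 ≤ Ms m n * h :=
            mul_le_mul_of_nonneg_left (by exact_mod_cast hh) hMpos.le
          rw [h7]
          omega
  have hfin := key L le_rfl (q0 p ε) ⟨fun v j _ => rfl, fun v j => Or.inr (Or.inr rfl)⟩
  exact hfin

end Pool.Agent.TP.H33
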